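import Pool.Agent.H118.CAB.Bij
import Pool.Agent.R410.NG.Nat3

/-!
# The Tauberian generalized Nagao conjecture for the linear pencils of curves `Y^m = X^n + ...`

Let `M` be a finitely generated field of characteristic zero and of transcendence degree `d` over `ℚ`,
which contains the number field `k`, and let `K = M(w)` be the field of rational functions over `M`: the
function field of a variety over `k` of dimension `d + 1`.  Let `m, n ≥ 1` be coprime, and let
`c, e ∈ M[X, Y]` be polynomials all of whose monomials `X^j Y^i` satisfy `m j + n i < m n`.  Put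
`F = Y^m - X^n + c`, and assume that `e ≠ 0` and that `F` and `e` are relatively prime in `M[X, Y]`.
Let `X` be the smooth projective curve over `K` with the affine equation `F + w e = 0`, and assume that
this affine curve is smooth, that is, its coordinate ring is a Dedekind domain.  Such a curve
has one point at infinity, and it is rational (the curve is a `C_{m,n}` curve of genus
`(m - 1)(n - 1) / 2`): the group `J(K)` of the points of its Jacobian is the class group of the
coordinate ring.

The algebraic side: the rank of `J(K)` is `β - ν`, where `β` is the number of the base points of the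
pencil, that is of the closed points of the intersection `F = e = 0` in the plane over `M`, and `ν` is the
number of the irreducible components of the curve `e = 0` over `M`.

The analytic side: let `R` be any model of `K` over the integers of `k`, that is any integral domain which
is finitely generated as a ring, contains the integers of `k` and has the field of fractions `K`, and over
which the curve has an equation `G = 0`, and let `N` be any nonzero multiple of `m` in `R` (for example
such that the fibres over the points with `N ≠ 0` are smooth).  Let `𝔄_v` be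
the fibre averages over the points of `Spec R` above `v` with `N ≠ 0`.  Then the averages
`T⁻¹ ∑_{q_v ≤ T} 𝔄_v log q_v` converge to `-rank J(K)` for `T → ∞`.

The surface `F + w e = 0` over `M` is rational, so that the `K/M`-trace and the `K/k`-trace of `J` are
zero, and `𝔄* = 𝔄`.
-/

set_option autoImplicit false

namespace Pool.Agent.Results.MP_1a0ddd_nt.LinearPencils

open Polynomial NumberField IsDedekindDomain Filter Topology

/-- All the monomials `X^j Y^i` of `h` satisfy `m j + n i < m n`. -/
def IsLow {R : Type} [CommRing R] (m n : ℕ) (h : R[X][X]) : Prop :=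
  ∀ i j, (h.coeff i).coeff j ≠ 0 → m * j + n * i < m * n

/-- The polynomial `F = Y^m - X^n + c`. -/
noncomputable def pol {R : Type} [CommRing R] (m n : ℕ) (c : R[X][X]) : R[X][X] :=
  X ^ m - C (X ^ n) + c

/-- The polynomial `h` with its coefficients in the larger ring `S`. -/
noncomputable def ext {R : Type} (S : Type) [CommRing R] [CommRing S] [Algebra R S] (h : R[X][X]) :
    S[X][X] := h.map (mapRingHom (algebraMap R S))

/-- The polynomial `F + w e` over `K`. -/
noncomputable def curve {M K : Type} [Field M] [Field K] [Algebra M K] (m n : ℕ) (c e : M[X][X])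
    (w : K) : K[X][X] :=
  ext K (pol m n c) + C (C w) * ext K e

/-- The closed points of the intersection of `F = 0` and `e = 0` in the plane: the prime ideals of
`M[X, Y]` which contain `F` and `e` (all of them are maximal if `F` and `e` are relatively prime). -/
def BasePoint {M : Type} [Field M] (F e : M[X][X]) : Type :=
  {P : Ideal M[X][X] // P.IsPrime ∧ F ∈ P ∧ e ∈ P}

/-- The irreducible components of the curve `e = 0`. -/
def Component {M : Type} [Field M] (e : M[X][X]) : Type :=
  {P : Ideal M[X][X] // ∃ f, Irreducible f ∧ f ∣ e ∧ P = Ideal.span {f}}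

/-- The trace of the Frobenius on `H¹` of the smooth projective curve with the smooth affine part `g = 0`
over the finite field `F`, and with one point at infinity: the number of the elements of `F` minus the
number of the affine points. -/
noncomputable def traceOne (F : Type) [Field F] (g : F[X][X]) : ℝ :=
  (Nat.card F : ℝ) - Nat.card {P : F × F // evalEval P.1 P.2 g = 0}

/-- The average `𝔄_v = q_v^{-m} ∑ a(fibre)` of the traces of the fibres of `G = 0` over the points of
`Spec R` above `v`, rational over the residue field of `v`, at which `N` does not vanish. -/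
noncomputable def average {k R : Type} [Field k] [NumberField k] [CommRing R] [Algebra (𝓞 k) R]
    (G : R[X][X]) (N : R) (m : ℕ) (v : HeightOneSpectrum (𝓞 k)) : ℝ :=
  ((Nat.card (𝓞 k ⧸ v.asIdeal) : ℝ) ^ m)⁻¹ *
    ∑ᶠ φ : {φ : R →+* 𝓞 k ⧸ v.asIdeal //
      φ.comp (algebraMap (𝓞 k) R) = Ideal.Quotient.mk v.asIdeal ∧ φ N ≠ 0},
        traceOne (𝓞 k ⧸ v.asIdeal) (G.map (mapRingHom φ.1))

/-- `Σ_T(b) = ∑_{v ∉ S, q_v ≤ T} b(v) log q_v`. -/
noncomputable def sumUpTo {k : Type} [Field k] [NumberField k] (S : Finset (HeightOneSpectrum (𝓞 k)))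
    (b : HeightOneSpectrum (𝓞 k) → ℝ) (T : ℝ) : ℝ :=
  ∑ᶠ v ∈ {v : HeightOneSpectrum (𝓞 k) | v ∉ S ∧ (Ideal.absNorm v.asIdeal : ℝ) ≤ T},
    b v * Real.log (Ideal.absNorm v.asIdeal : ℝ)

/-- **The Tauberian generalized Nagao conjecture for all the smooth linear pencils of curves
`Y^m = X^n + ...` over `M(w)`, for an arbitrary finitely generated field `M` of characteristic zero and
for every model.** -/
theorem result {k : Type} [Field k] [NumberField k] {M : Type} [Field M] [CharZero M] [Algebra k M]
    (hM : ∃ S : Finset M, Subfield.closure (S : Set M) = ⊤) {d : ℕ} (hd : Algebra.trdeg ℚ M = d)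
    {K : Type} [Field K] [CharZero K] [Algebra M K] {w : K} (hw : Transcendental M w)
    (hK : IntermediateField.adjoin M {w} = ⊤)
    {m n : ℕ} (hm : 0 < m) (hn : 0 < n) (hmn : Nat.Coprime m n) {c e : M[X][X]}
    (hc : IsLow m n c) (he : IsLow m n e) (he0 : e ≠ 0) (hrel : IsRelPrime (pol m n c) e)
    (hs : IsDedekindDomain (AdjoinRoot (curve m n c e w))) :
    Algebra.trdeg ℚ K = (d + 1 : ℕ) ∧
    -- the algebraic side: the rank of `J(K)`
    Finite (BasePoint (pol m n c) e) ∧ Finite (Component e) ∧
    Nat.card (Component e) ≤ Nat.card (BasePoint (pol m n c) e) ∧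
    Module.rank ℤ (Additive (ClassGroup (AdjoinRoot (curve m n c e w)))) =
      ((Nat.card (BasePoint (pol m n c) e) - Nat.card (Component e) : ℕ) : Cardinal) ∧
    -- the analytic side: the limit of the averages of the `𝔄_v`, for every model
    ∀ (R : Type) [CommRing R] [IsDomain R] [Algebra.FiniteType ℤ R] [Algebra R K]
      [IsFractionRing R K] [Algebra (𝓞 k) R],
      (∀ z : 𝓞 k, algebraMap R K (algebraMap (𝓞 k) R z) = algebraMap M K (algebraMap k M z)) →
      ∀ G : R[X][X], ext K G = curve m n c e w →
        ∀ N : R, N ≠ 0 → (m : R) ∣ N → ∀ S : Finset (HeightOneSpectrum (𝓞 k)),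
          Tendsto (fun T : ℝ => sumUpTo S (fun v => average G N (d + 1) v) T / T) atTop
            (𝓝 (-((Nat.card (BasePoint (pol m n c) e) - Nat.card (Component e) : ℕ) : ℝ))) := by
  classical
  have hcv : curve m n c e w = Pool.Agent.H118.CAB.cab m n (Pool.Agent.H118.CAB.bi M K c +
      C (C w) * Pool.Agent.H118.CAB.bi M K e) := Pool.Agent.H118.CAB.gen_eq c e w
  have key : ∀ g : K[X][X], Pool.Agent.H118.CAB.cab m n (Pool.Agent.H118.CAB.bi M K c +
      C (C w) * Pool.Agent.H118.CAB.bi M K e) = g → ∀ h : IsDedekindDomain (AdjoinRoot g),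
      Nat.card (Component e) ≤ Nat.card (BasePoint (pol m n c) e) ∧
      Module.rank ℤ (Additive (ClassGroup (AdjoinRoot g))) =
        ((Nat.card (BasePoint (pol m n c) e) - Nat.card (Component e) : ℕ) : Cardinal) := by
    rintro _ rfl h
    exact Pool.Agent.H118.CAB.rank_cab hw hK hm hn hmn hc he he0 hrel
  obtain ⟨h1, h2⟩ := key _ hcv.symm hs
  have hF := (Pool.Agent.H118.CAB.cab_monic hm hc).1
  refine ⟨Pool.Agent.R410.NG.trdeg_line hd hw hK, Pool.Agent.H118.CAB.Bp.finite hF hrel,
    Pool.Agent.H118.CAB.Comp.finite he0, h1, h2, ?_⟩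
  · intro R _ _ _ _ _ _ hk G hG N hN hmN S
    have h6 := (Pool.Agent.H118.CAB.residue_cab (k := k) hM hd hw hK hm hmn hc he he0 hrel R hk
      (G := G) (hG.trans rfl) hN S).2
    obtain ⟨c', hc', hGc, -⟩ := Pool.Agent.H118.CAB.cab_of_map (φ := algebraMap R K)
      (IsFractionRing.injective R K) (hG.trans hcv) (Pool.Agent.H118.CAB.gen_low hc he w)
    have h7 : (fun v : HeightOneSpectrum (𝓞 k) => Pool.Agent.R410.NG.avg
        (Pool.Agent.H118.CAB.wc m n) (Pool.Agent.H118.CAB.enc m n G) N (d + 1) v) =
        fun v => -average G N (d + 1) v := by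
      funext v
      unfold Pool.Agent.R410.NG.avg Pool.Agent.R410.NG.sR average
      rw [← mul_neg, ← finsum_neg_distrib]
      congr 1
      refine finsum_congr fun φ => ?_
      have hmF : ((m : ℕ) : 𝓞 k ⧸ v.asIdeal) ≠ 0 := by
        obtain ⟨t, ht⟩ := hmN
        intro h0
        exact φ.2.2 ((congrArg φ.1 ht).trans (by rw [map_mul, map_natCast, h0, zero_mul]))
      exact Pool.Agent.H118.CAB.wc_enc hm hc' hGc hmF φ.1
    rw [h7] at h6
    have hr : ((Nat.card (BasePoint (pol m n c) e) - Nat.card (Component e) : ℕ) : ℝ) =
        (((Nat.card (Pool.Agent.H118.CAB.Bp (Pool.Agent.H118.CAB.cab m n c) e) : ℤ) -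
          Nat.card (Pool.Agent.H118.CAB.Comp e) : ℤ) : ℝ) := by
      refine (Nat.cast_sub (R := ℝ) h1).trans ?_
      push_cast
      rfl
    rw [hr]
    have h8 := (Pool.Agent.R410.NG.sumT_lim h6).neg
    refine h8.congr fun T => ?_
    rw [Pool.Agent.R410.NG.sumT_neg, neg_div, neg_neg]
    rfl

end Pool.Agent.Results.MP_1a0ddd_nt.LinearPencils
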